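import Mathlib

/-!
# The isolation condition for countable unions of semisimple rings (MP_337222_al)

Row `XXX`: `theorem XXX (h1 : YYY_stmt) ... : XXX_stmt` in namespace `Pool.Agent.IC`, file
`Pool/Agent/<seat>/IC/XXX.lean`, importing this file. The docstring of `XXX_stmt` contains the proof. The other
statements may be used as hypotheses. All modules are left modules (right modules: over the opposite ring).
-/

set_option autoImplicit false

namespace Pool.Agent.IC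

universe u

/-! ## Definitions of the final statement -/

/-- A pp condition in `n` variables `x` for left modules over `R`: there is `y` with `A x + B y = 0`. -/
structure PP (R : Type u) (n : ℕ) where
  m : ℕ
  k : ℕ
  A : Matrix (Fin k) (Fin n) R
  B : Matrix (Fin k) (Fin m) R

/-- The subgroup of `M^n` defined by a pp condition. -/
def PP.sol {R : Type u} [Ring R] {n : ℕ} (φ : PP R n) (M : Type u) [AddCommGroup M] [Module R M] :
    Set (Fin n → M) :=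
  {x | ∃ y : Fin φ.m → M, ∀ i, ∑ j, φ.A i j • x j + ∑ l, φ.B i l • y l = 0}

/-- Pure monomorphisms. -/
def IsPure {R : Type u} [Ring R] {M N : Type u} [AddCommGroup M] [Module R M] [AddCommGroup N] [Module R N]
    (f : M →ₗ[R] N) : Prop :=
  Function.Injective f ∧ ∀ (n : ℕ) (φ : PP R n) (x : Fin n → M),
    (fun j => f (x j)) ∈ φ.sol N → x ∈ φ.sol M

/-- Pure-injective modules: all pure monomorphisms `M → N` split. -/
def PureInjective (R : Type u) [Ring R] (M : Type u) [AddCommGroup M] [Module R M] : Prop :=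
  ∀ (N : Type u) [AddCommGroup N] [Module R N] (f : M →ₗ[R] N), IsPure f →
    ∃ g : N →ₗ[R] M, g ∘ₗ f = LinearMap.id

/-- Indecomposable modules. -/
def Indecomposable (R : Type u) [Ring R] (M : Type u) [AddCommGroup M] [Module R M] : Prop :=
  Nontrivial M ∧ ∀ A B : Submodule R M, IsCompl A B → A = ⊥ ∨ B = ⊥

/-- The points of the Ziegler spectrum: indecomposable pure-injective modules (up to isomorphism). -/
structure IsPoint (R : Type u) [Ring R] (M : Type u) [AddCommGroup M] [Module R M] : Prop where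
  pinj : PureInjective R M
  indec : Indecomposable R M

/-- A set of pp pairs. -/
abbrev Pairs (R : Type u) : Type u := Set (Σ n : ℕ, PP R n × PP R n)

/-- `N` is a point of the closed set of the Ziegler spectrum given by `Φ`, the set of the points which are in no
basic open set `(φ/ψ)`, `(φ, ψ) ∈ Φ`. -/
def Mem {R : Type u} [Ring R] (Φ : Pairs R) (N : Type u) [AddCommGroup N] [Module R N] : Prop :=
  IsPoint R N ∧ ∀ p ∈ Φ, p.2.1.sol N ⊆ p.2.2.sol N

/-- `(φ/ψ) ∩ Y = {N}` for the closed set `Y` given by `Φ`. -/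
def Isolates {R : Type u} [Ring R] (Φ : Pairs R) {n : ℕ} (φ ψ : PP R n) (N : Type u) [AddCommGroup N]
    [Module R N] : Prop :=
  Mem Φ N ∧ ¬ φ.sol N ⊆ ψ.sol N ∧ ∀ (N' : Type u) [AddCommGroup N'] [Module R N'], Mem Φ N' →
    ¬ φ.sol N' ⊆ ψ.sol N' → Nonempty (N' ≃ₗ[R] N)

/-- `φ/ψ` is a `Y`-minimal pair, for the closed set `Y` given by `Φ`. -/
structure IsMinimalPair {R : Type u} [Ring R] (Φ : Pairs R) {n : ℕ} (φ ψ : PP R n) : Prop where
  le : ∀ (N : Type u) [AddCommGroup N] [Module R N], Mem Φ N → ψ.sol N ⊆ φ.sol N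
  ne : ∃ (N : Type u) (_ : AddCommGroup N) (_ : Module R N), Mem Φ N ∧ ¬ φ.sol N ⊆ ψ.sol N
  simple : ∀ χ : PP R n, (∀ (N : Type u) [AddCommGroup N] [Module R N], Mem Φ N →
      ψ.sol N ⊆ χ.sol N ∧ χ.sol N ⊆ φ.sol N) →
    (∀ (N : Type u) [AddCommGroup N] [Module R N], Mem Φ N → χ.sol N ⊆ ψ.sol N) ∨
      ∀ (N : Type u) [AddCommGroup N] [Module R N], Mem Φ N → φ.sol N ⊆ χ.sol N

/-- The closed set `X` given by `Φ₀` satisfies the isolation condition: for every closed `Y ⊆ X` (given by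
`Φ`), every isolated point of `Y` is isolated by a `Y`-minimal pair. -/
def IsolationCondition (R : Type u) [Ring R] (Φ₀ : Pairs R) : Prop :=
  ∀ Φ : Pairs R, (∀ (N : Type u) [AddCommGroup N] [Module R N], Mem Φ N → Mem Φ₀ N) →
    ∀ (N : Type u) [AddCommGroup N] [Module R N],
      (∃ (n : ℕ) (φ ψ : PP R n), Isolates Φ φ ψ N) →
        ∃ (n : ℕ) (φ ψ : PP R n), IsMinimalPair Φ φ ψ ∧ Isolates Φ φ ψ N

/-- `R` is the union of an ascending sequence of semisimple (artinian) subrings. -/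
def Chain (R : Type u) [Ring R] : Prop :=
  ∃ S : ℕ → Subring R, Monotone S ∧ (∀ r, ∃ n, r ∈ S n) ∧ ∀ n, IsSemisimpleRing (S n)

/-! ## Regularity, elimination, hulls -/

/-- REG (short). Semisimple rings are von Neumann regular. Proof: the left ideal `T x` has a complement, so it
is `T g` with `g` idempotent: `g = y x`, `x = x g = x y x` (or: the map `T → T x`, `t ↦ t x` splits). -/
def REG_stmt : Prop := ∀ (T : Type u) [Ring T] [IsSemisimpleRing T] (x : T), ∃ y, x * y * x = x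

/-- QIM (medium). Quasi-inverses of matrices. Proof: all entries of `B` are in some `T = S n` (finitely many
entries, monotone). Over the semisimple ring `T` let `f : (Fin k → T) → (Fin m → T)`, `f v = v ᵥ* B`, left linear
between semisimple modules: kernel and range have complements, so there is `g` with `f ∘ g ∘ f = f`; `g` is
`w ↦ w ᵥ* C` for the matrix `C` with the rows `g (Pi.single i 1)` (`Matrix.toLinearMapRight'`), so `B * C * B = B`
(apply to `Pi.single i 1`); map to `R`. -/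
def QIM_stmt : Prop := ∀ (R : Type u) [Ring R], Chain R → ∀ (k m : ℕ) (B : Matrix (Fin k) (Fin m) R),
  ∃ C : Matrix (Fin m) (Fin k) R, B * C * B = B

/-- ELI (short-medium). Elimination of quantifiers. Proof: `B C B = B`, `G = (1 - B C) A`.
If `A x + B y = 0`, then `(1 - BC) A x = - (1 - BC) B y = 0`. If `(1 - BC) A x = 0`, take `y = - C A x`. (Sums over
`Fin`; matrices act on vectors in `Fin n → M`; `Finset.sum_comm`, `Finset.smul_sum`, `mul_smul`, `Finset.sum_smul`.) -/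
def ELI_stmt : Prop := ∀ (R : Type u) [Ring R], Chain R → ∀ (n : ℕ) (φ : PP R n),
  ∃ (k : ℕ) (G : Matrix (Fin k) (Fin n) R), ∀ (M : Type u) [AddCommGroup M] [Module R M] (x : Fin n → M),
    x ∈ φ.sol M ↔ ∀ i, ∑ j, G i j • x j = 0

/-- OPN (short-medium). From `ELI`, `QIM`. Basic open sets are unions of sets `{M | h M ≠ 0}`. Proof: `φ: G x = 0`,
`ψ: G' x = 0`, `G C G = G`, `H = G' (1 - C G)`: the solutions of `G x = 0` are exactly the `(1 - C G) z`, `z ∈ M^n`. So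
`φ(M) ⊆ ψ(M)` iff `H z = 0` for all `z`, iff all entries of `H` kill `M` (take `z = Pi.single j x`). -/
def OPN_stmt : Prop := ∀ (R : Type u) [Ring R], Chain R → ∀ (n : ℕ) (φ ψ : PP R n),
  ∃ (k : ℕ) (H : Matrix (Fin k) (Fin n) R), ∀ (M : Type u) [AddCommGroup M] [Module R M],
    (φ.sol M ⊆ ψ.sol M ↔ ∀ i j, ∀ x : M, H i j • x = 0)

/-- PIN (short). From `ELI`: every injective map is pure (a quantifier free condition is reflected by an
injective linear map), so pure-injective modules are exactly the modules all of whose embeddings split. -/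
def PIN_stmt : Prop := ∀ (R : Type u) [Ring R], Chain R → ∀ (M : Type u) [AddCommGroup M] [Module R M],
  (∀ (N : Type u) [AddCommGroup N] [Module R N] (f : M →ₗ[R] N), Function.Injective f →
    ∃ g : N →ₗ[R] M, g ∘ₗ f = LinearMap.id) → PureInjective R M

/-- HUL (medium). Injective hulls. Proof: `W` embeds in an injective module `I : Type u` (Mathlib: enough
injectives in `ModuleCat R`, `Module.injective_object_of_injective_module`, ...). Zorn: `N ≤ I` maximal with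
`W ≤ N` essential. Zorn: `K ≤ I` maximal with `K ⊓ N = ⊥`. `N → I / K` is injective and essential; extend
`N ≤ I` to `h : I / K → I` (`I` injective), `h` is injective (essential), its image contains `N` and is essential over
`W`, so it is `N`; hence `N + K = I`. So `N` is a direct summand of an injective module and embeddings of `N` split.
`E = N`. -/
def HUL_stmt : Prop := ∀ (R : Type u) [Ring R] (W : Type u) [AddCommGroup W] [Module R W],
  ∃ (E : Type u) (_ : AddCommGroup E) (_ : Module R E) (f : W →ₗ[R] E), Function.Injective f ∧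
    (∀ K : Submodule R E, K ≠ ⊥ → K ⊓ LinearMap.range f ≠ ⊥) ∧
    ∀ (N : Type u) [AddCommGroup N] [Module R N] (g : E →ₗ[R] N), Function.Injective g →
      ∃ p : N →ₗ[R] E, p ∘ₗ g = LinearMap.id

/-- `R / L` is uniform. -/
def Uni {R : Type u} [Ring R] (L : Ideal R) : Prop :=
  ∀ x y, x ∉ L → y ∉ L → ∃ r s, r * x ∉ L ∧ r * x - s * y ∈ L

/-- `R / L` has no simple submodule. -/
def NoSoc {R : Type u} [Ring R] (L : Ideal R) : Prop :=
  ∀ x, x ∉ L → ∃ r, r * x ∉ L ∧ ∀ s, x - s * (r * x) ∉ L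

/-- UPT (medium). From `HUL`, `PIN`, `REG`. Points from uniform left ideals. Proof: `W = R / L`, hull `f : W → E`
(`HUL`), `v = f 1`, `N = E`. `IsPoint`: `PIN`; indecomposable: two nonzero submodules `A, B` of `E` meet `range f`, and
their intersections with it meet (`Uni`), so `A ⊓ B ≠ ⊥`; nontrivial since `1 ∉ L`. Last clause: the submodule
generated by `x` meets `range f` (`K = R ∙ x`). Killed by `J`: let `j ∈ J`, `j x ≠ 0`; then `r (j x) = s v ≠ 0`; `j' = r j ∈ J`;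
`j' = j' z j'` (`R` is regular: `REG` in some `S n`), so `j' x = j' z (j' x) = (j' z s) v = 0` as `j' z s ∈ J ≤ L`. -/
def UPT_stmt : Prop := ∀ (R : Type u) [Ring R], Chain R → ∀ (J L : Ideal R), (∀ x ∈ J, ∀ r, x * r ∈ J) →
  J ≤ L → (1 : R) ∉ L → Uni L →
  ∃ (N : Type u) (_ : AddCommGroup N) (_ : Module R N) (v : N), IsPoint R N ∧
    (∀ r ∈ J, ∀ x : N, r • x = 0) ∧ (∀ r : R, r • v = 0 ↔ r ∈ L) ∧
    ∀ x : N, x ≠ 0 → ∃ r s : R, r • x ≠ 0 ∧ r • x = s • v

/-! ## Idempotents -/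

/-- PRI (short-medium). From `REG`. Proof: `T` is left artinian; among the idempotents `g` with `f g = g = g f`,
`c g ≠ 0` (`f` is one) choose one with `T g` minimal (`WellFoundedLT (Submodule T T)`). Let `x g ≠ 0`; `REG`:
`(x g) y (x g) = x g`, `g₁ = g y x g` is idempotent, `g g₁ = g₁ = g₁ g`, `(x g) g₁ = x g ≠ 0`. If `g₁ = g`, then
`(g y) (x g) = g`, done. Otherwise `g₂ = g - g₁` is a nonzero idempotent, `g₁ g₂ = 0 = g₂ g₁`, `c g₁ ≠ 0` or
`c g₂ ≠ 0`, and `T gᵢ` is strictly smaller than `T g` (`g = t g₁` gives `g₂ = g g₂ = 0`), a contradiction. -/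
def PRI_stmt : Prop := ∀ (T : Type u) [Ring T] [IsSemisimpleRing T] (f c : T), f * f = f → c * f ≠ 0 →
  ∃ g : T, g * g = g ∧ f * g = g ∧ g * f = g ∧ c * g ≠ 0 ∧
    ∀ x : T, x * g = 0 ∨ ∃ y : T, y * (x * g) = g

/-- The data: a chain of subrings `T n`, idempotents `e n`, primitive in `T n`, decreasing, and `ε n ≠ 0` in
`(e n - e (n+1)) T (n+1) e (n+1)`. -/
structure Dat {S : Type u} [Ring S] (T : ℕ → Subring S) (e ε : ℕ → S) : Prop where
  mono : Monotone T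
  all : ∀ r, ∃ n, r ∈ T n
  mem : ∀ n, e n ∈ T n
  meme : ∀ n, ε n ∈ T (n + 1)
  ne : ∀ n, e n ≠ 0
  idem : ∀ n, e n * e n = e n
  prim : ∀ n, ∀ x ∈ T n, x * e n = 0 ∨ ∃ y ∈ T n, y * (x * e n) = e n
  le1 : ∀ n, e n * e (n + 1) = e (n + 1)
  le2 : ∀ n, e (n + 1) * e n = e (n + 1)
  ε1 : ∀ n, e n * ε n = ε n
  ε2 : ∀ n, ε n * e (n + 1) = ε n
  ε3 : ∀ n, e (n + 1) * ε n = 0
  ε0 : ∀ n, ε n ≠ 0

/-- SEQ (medium). From `PRI`, `REG`. Proof: by recursion choose `k n` (strictly increasing), `T n = S (k n)`, `e n`, `ε n`.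
Start: `e ∈ S k`, `PRI` in `S k` with `f = c = e`. Step: `f = e n` is nonzero, `f e = f`; by `hNM` there is `h` with
`h f ≠ 0` and `r (h f) ≠ f` for all `r`; `(h f) y (h f) = h f` (regular); `f' = f y h f` is an idempotent,
`f f' = f' = f' f`, `f' ≠ 0`, `f' ≠ f`; `f'' = f - f'`. `hP`: `f'' b f' ≠ 0`. Take `k (n+1) > k n` with `f', f'', b ∈ S (k (n+1))`,
`PRI` there with `f := f'`, `c := f'' b`: `g`; `e (n+1) = g`, `ε n = f'' b g`. -/
def SEQ_stmt : Prop := ∀ (S : Type u) [Ring S], Chain S → ∀ e : S, e * e = e → e ≠ 0 →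
  (∀ f, f * e = f → f ≠ 0 → ∃ h, h * f ≠ 0 ∧ ∀ r, r * (h * f) ≠ f) →
  (∀ f' f'', f' * f' = f' → f'' * f'' = f'' → e * f' = f' → f' * e = f' → e * f'' = f'' → f'' * e = f'' →
    f' ≠ 0 → f'' ≠ 0 → ∃ b, f'' * b * f' ≠ 0) →
  ∃ (T : ℕ → Subring S) (E ε : ℕ → S), Dat T E ε ∧ e * E 0 = E 0 ∧ E 0 * e = E 0

/-- The data used in the construction of the module. -/
structure Mac {S : Type u} [Ring S] (R : ℕ → Subring S) (E : ℕ → S) (γ : ℕ → ℕ → S) : Prop where
  mono : Monotone R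
  all : ∀ r, ∃ n, r ∈ R n
  mem : ∀ a, E a ∈ R a
  memg : ∀ a l, γ a l ∈ R (a + 1)
  ne : ∀ a, E a ≠ 0
  idem : ∀ a, E a * E a = E a
  prim : ∀ a, ∀ x ∈ R a, x * E a = 0 ∨ ∃ y ∈ R a, y * (x * E a) = E a
  le1 : ∀ a, E a * E (a + 1) = E (a + 1)
  le2 : ∀ a, E (a + 1) * E a = E (a + 1)
  g1 : ∀ a l, E a * γ a l = γ a l
  g2 : ∀ a l, γ a l * E (a + 1) = γ a l
  star : ∀ a, ∀ c : ℕ → S, (∀ l ≤ a, c l ∈ R a ∧ E a * c l = c l ∧ c l * E a = c l ∧
    (1 - E (a + 1)) * (c l * E (a + 1)) = 0) → (∃ l ≤ a, c l ≠ 0) →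
    (1 - E (a + 1)) * ∑ l ∈ Finset.range (a + 1), c l * γ a l ≠ 0

/-- STA (medium). Proof: write `M = n + a + 1`. (0) For `m ≤ m'`: `e m e m' = e m' = e m' e m`. (1) If `x ∈ T m`,
`x e m = x`, `m ≤ m'` and `x e m' = 0`, then `x = 0` (otherwise `y x = e m`, and `e m' = e m e m' = 0`). (2) For `n ≤ m ≤ M`,
`l ≤ a`: `y = (1 - e m) c_l e m ∈ T m`, and `y e M = (1 - e m) c_l e M = (1 - e m) e M c_l e M = 0`, so `c_l e m = e m c_l e m`.
(3) Let `i` be minimal with `c_i ≠ 0`, `m = n + i + 1`; suppose `(1 - e M) Σ = 0`; then also `(1 - e m) Σ = 0` (`(1 - e m) e M = 0`,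
`Σ = e M Σ`). For `l > i`: `c_l ε_(n+l) = c_l e_(n+l) ε_(n+l) = e_(n+l) c_l e_(n+l) ε_(n+l)` is killed by `1 - e m`. So
`(1 - e m) c_i ε_(n+i) e M = 0`, by (1) (`ε_(n+i) ∈ T m`, `ε_(n+i) e m = ε_(n+i)`) `(1 - e m) c_i ε_(n+i) = 0`.
(4) `prim` and `c_i ≠ 0`: `d c_i = e n` with `d ∈ T n`, wlog `d = e n d e n`. `c_i d` is idempotent ... in the division ring
`e n T n e n`: also `c_i d = e n`. From `c_i e m = e m c_i e m =: ζ` and `ζ ≠ 0` (by (1)), `prim` at `m`: `ζ' ζ = e m` with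
`ζ' = e m ζ' e m ∈ T m`, and `ζ ζ' = e m`; `e m = d c_i e m = d ζ`, so `d e m = d ζ ζ' = e m ζ' = e m ζ'`, hence
`d e m = e m d e m`. (5) `ε_(n+i) = d c_i ε_(n+i) = d e m c_i ε_(n+i) = e m d e m c_i ε_(n+i)`, so
`ε_(n+i) = e m ε_(n+i) = 0` by `ε3`: contradiction. -/
def STA_stmt : Prop := ∀ (S : Type u) [Ring S] (T : ℕ → Subring S) (e ε : ℕ → S), Dat T e ε →
  ∀ (n a : ℕ) (c : ℕ → S), (∀ l ≤ a, c l ∈ T n ∧ e n * c l = c l ∧ c l * e n = c l ∧
    (1 - e (n + a + 1)) * (c l * e (n + a + 1)) = 0) → (∃ l ≤ a, c l ≠ 0) →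
    (1 - e (n + a + 1)) * ∑ l ∈ Finset.range (a + 1), c l * (ε (n + l) * e (n + a + 1)) ≠ 0

/-- MAC (short-medium). From `STA`. Proof: `t a = a (a + 1) / 2`, `t 0 = 0`, `t (a + 1) = t a + a + 1`; `R a = T (t a)`, `E a = e (t a)`,
`γ a l = ε (t a + l) e (t (a + 1))` for `l ≤ a` and `0` otherwise. For `m ≤ m'`: `e m e m' = e m' = e m' e m`; for `l ≤ a`:
`ε (t a + l) ∈ T (t a + l + 1) ≤ T (t (a+1))`, `e (t a) ε (t a + l) = e (t a) e (t a + l) ε (t a + l)`. -/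
def MAC_stmt : Prop := ∀ (S : Type u) [Ring S] (T : ℕ → Subring S) (e ε : ℕ → S), Dat T e ε →
  ∃ (R : ℕ → Subring S) (E : ℕ → S) (γ : ℕ → ℕ → S), Mac R E γ ∧ E 0 = e 0

/-! ## The module -/

/-- The rows `b a j`: `b 0 0 = E 0`, `b (a+1) j = b a j * E (a+1)` for `j ≤ a`,
`b (a+1) (a+1) = ∑ l ≤ a, b a l * γ a l`, the others are `0`. -/
noncomputable def bb {S : Type u} [Ring S] (E : ℕ → S) (γ : ℕ → ℕ → S) : ℕ → ℕ → S
  | 0 => fun j => if j = 0 then E 0 else 0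
  | a + 1 => fun j => if j ≤ a then bb E γ a j * E (a + 1) else
      if j = a + 1 then ∑ l ∈ Finset.range (a + 1), bb E γ a l * γ a l else 0

/-- BAS (medium). Proof: induction on `a` (resp. `c`). (4): `s b_(c,j) = s b_(a,j) E c`; `x = s b_(a,j) ∈ R a`, `x E a = x`; if `x ≠ 0`,
`prim` gives `y x = E a`, so `E c = E a E c = y x E c = 0`, contradiction (`E a E c = E c` for `a ≤ c`, induction).
(5) If `s b_(a,j) = 0` for all `j < i`, the same at level `a + 1`: for `j ≤ a` clear, for `j = a + 1 < i` all `l ≤ a` are `< i`. -/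
def BAS_stmt : Prop := ∀ (S : Type u) [Ring S] (R : ℕ → Subring S) (E : ℕ → S) (γ : ℕ → ℕ → S), Mac R E γ →
  (∀ a j, bb E γ a j ∈ R a ∧ bb E γ a j * E a = bb E γ a j) ∧
  (∀ a j, a < j → bb E γ a j = 0) ∧
  (∀ a c j, j ≤ a → a ≤ c → bb E γ c j = bb E γ a j * E c) ∧
  (∀ a c j s, s ∈ R a → j ≤ a → a ≤ c → s * bb E γ c j = 0 → s * bb E γ a j = 0) ∧
  (∀ a c i s, a ≤ c → (∀ j < i, s * bb E γ a j = 0) → ∀ j < i, s * bb E γ c j = 0)

/-- `A` contains `j` elements of `R a` which are pivotal at level `a`. -/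
def Piv {S : Type u} [Ring S] (R : ℕ → Subring S) (E : ℕ → S) (γ : ℕ → ℕ → S) (a : ℕ) (A : Ideal S) (j : ℕ) :
    Prop :=
  ∃ (P : Finset ℕ) (s : ℕ → S), P ⊆ Finset.range (a + 1) ∧ P.card = j ∧
    ∀ i ∈ P, s i ∈ R a ∧ s i ∈ A ∧ E a * s i = s i ∧ ∀ i' ∈ P, s i * bb E γ a i' = if i = i' then E a else 0

/-- STR (short). From `BAS`. One pivot. Proof: some `j ≤ a` with `x b_(a,j) ≠ 0` (`b_(a,j) = 0` for `j > a`); it is in `R a` and in
`R a E a`; `prim`: `y (x b_(a,j)) = E a`; `P = {j}`, `s = E a y x` (`E a E a = E a`). -/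
def STR_stmt : Prop := ∀ (S : Type u) [Ring S] (R : ℕ → Subring S) (E : ℕ → S) (γ : ℕ → ℕ → S), Mac R E γ →
  ∀ (a : ℕ) (A : Ideal S) (x : S), x ∈ A → x ∈ R a → (∃ j, x * bb E γ a j ≠ 0) → Piv R E γ a A 1

/-- GRO (medium). From `BAS`. Growth. Write `E' = E (a+1)`, `b = bb E γ a`, `b' = bb E γ (a+1)`. Proof: let `P`, `s` be as in `Piv`, `1 ≤ j`.
`z i = E' s i` has `z i b'_(i') = E' s_i b_(i') E' = δ E'` for `i, i' ∈ P` (`E' E a E' = E'`). Take `i₀ ∈ P`, `v = s i₀`,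
`u = (1 - E') v ∈ A ∩ R (a+1)`: `u b'_(i') = (1 - E') v b_(i') E' = 0` for `i' ∈ P` (`(1 - E') E a E' = 0`). CLAIM: `u b'_q ≠ 0` for some `q ≤ a + 1`.
Otherwise, for `c l = v b_l` (`∈ R a`, `E a c_l = c_l = c_l E a`), `l ≤ a`: `(1 - E') c_l E' = 0`, and (`q = a + 1`) `(1 - E') ∑ c_l γ_(a,l) = 0`,
while `c_(i₀) = E a ≠ 0`: contradiction to `star`. So `q ∉ P`; `prim` at `a + 1` (`u b'_q ∈ R (a+1)`, `= .. E'`): `y (u b'_q) = E'`;
`w = E' y u`: `w b'_q = E'`, `w b'_(i') = 0` for `i' ∈ P`. The pivots are `insert q P`, the elements `w` for `q` and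
`z i - (z i b'_q) w` for `i ∈ P` (`E' (z i) = z i`, so `E'` fixes them). -/
def GRO_stmt : Prop := ∀ (S : Type u) [Ring S] (R : ℕ → Subring S) (E : ℕ → S) (γ : ℕ → ℕ → S), Mac R E γ →
  ∀ (a : ℕ) (A : Ideal S) (j : ℕ), 1 ≤ j → Piv R E γ a A j → Piv R E γ (a + 1) A (j + 1)

/-- LEN (short). Proof: `Module.length T (Fin m → I) = m`, so an injective map `(Fin m → I) → (Fin q → I)` gives `m ≤ q`
(`Module.length_le_of_injective`, `Module.length_pi` ..., `Module.length_eq_one`). -/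
def LEN_stmt : Prop := ∀ (T : Type u) [Ring T] (I : Ideal T) [IsSimpleModule T I] (m q : ℕ), q < m →
  ∀ f : (Fin m → I) →ₗ[T] (Fin q → I), ∃ c : Fin m → I, c ≠ 0 ∧ f c = 0

/-- DEP (short-medium). From `LEN`. Proof: `T` = the ring `R` (subtype), `I` = the left ideal of the `x : T` with `x g = x`; it is simple
by `hp` (nonzero since it contains `g`; a nonzero `x ∈ I` generates `g`). `f c = (∑ i, c i * u i q)_q`. -/
def DEP_stmt : Prop := ∀ (S : Type u) [Ring S] (R : Subring S) (g : S), g ∈ R → g ≠ 0 → g * g = g →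
  (∀ x ∈ R, x * g = 0 ∨ ∃ y ∈ R, y * (x * g) = g) → ∀ (m q : ℕ), q < m →
  ∀ u : Fin m → Fin q → S, (∀ i l, u i l ∈ R ∧ u i l * g = u i l ∧ g * u i l = u i l) →
    ∃ c : Fin m → S, (∀ i, c i ∈ R ∧ c i * g = c i) ∧ (∃ i, c i ≠ 0) ∧ ∀ l, ∑ i, c i * u i l = 0

/-- INT (medium). From `BAS`, `DEP`. Intersection. Proof: pivots `P, s` of `A` and `P', s'` of `B`, enumerate `P` by `Fin j`, `P'` by `Fin j'`
(`Finset.equivFin`); `DEP` for `R = R a`, `g = E a`, `q = a + 1`, `m = j + j'` and the vectors `s_i b_(a,l)`, `s'_i b_(a,l)`, `l ≤ a`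
(they are in `R a`, fixed by `E a` on both sides): `z = ∑ c_i s_i ∈ A`, `z' = - ∑ c'_i s'_i ∈ B`, both in `R a`, with
`z b_(a,l) = z' b_(a,l)` for `l ≤ a`, hence for all `l` (`b_(a,l) = 0` for `l > a`). If all `z b_(a,l) = 0`, then for `i ∈ P`: `0 = z b_(a,i) = c_i E a = c_i`,
and in the same way `c'_i = 0`: contradiction. -/
def INT_stmt : Prop := ∀ (S : Type u) [Ring S] (R : ℕ → Subring S) (E : ℕ → S) (γ : ℕ → ℕ → S), Mac R E γ →
  ∀ (a : ℕ) (A B : Ideal S) (j j' : ℕ), a + 1 < j + j' → Piv R E γ a A j → Piv R E γ a B j' →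
    ∃ z ∈ A, ∃ z' ∈ B, z ∈ R a ∧ z' ∈ R a ∧ (∀ l, z * bb E γ a l = z' * bb E γ a l) ∧ ∃ l, z * bb E γ a l ≠ 0

/-- LID (short). From `BAS`. The left ideals `L` and `Y i`. Proof: `{s | ∃ a, s ∈ R a ∧ ∀ j < i, s b_(a,j) = 0}` is closed under addition and
left multiplication by (5) of `BAS` (go to a common larger `a`; for all `j` instead of `j < i` take `i = a + 2 ...` or use that
(5) holds for every `i`). The second equivalence (for `s ∈ R a`): (4) and (5) of `BAS`, and `b_(a,j) = 0` for `j > a`. -/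
def LID_stmt : Prop := ∀ (S : Type u) [Ring S] (R : ℕ → Subring S) (E : ℕ → S) (γ : ℕ → ℕ → S), Mac R E γ →
  (∃ L : Ideal S, ∀ a, ∀ s ∈ R a, (s ∈ L ↔ ∀ j, s * bb E γ a j = 0)) ∧
  ∀ i : ℕ, ∃ Y : Ideal S, ∀ a, i ≤ a + 1 → ∀ s ∈ R a, (s ∈ Y ↔ ∀ j < i, s * bb E γ a j = 0)

/-- WID (medium). From `BAS`, `STR`, `GRO`, `INT`, `LID`. Proof: `L`, `Y i` from `LID`. `1 ∉ L`: `1 b_(0,0) = E 0 ≠ 0`. `(1 - E 0) b_(0,0) = 0`, so
`1 - E 0 ∈ L`. `L ≤ Y i`. (a) If `x ∉ L`, `x ∈ R a` (hence `x b_(a,j) ≠ 0` for some `j`), then `Piv (a + c) (span {x}) (1 + c)` for all `c` (`STR`, `GRO`).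
`Uni`: `x, y ∉ L`, both in `R a`, `c = a + 1`: `(a + c) + 1 < (1 + c) + (1 + c)`; `INT`: `z = r x`, `z' = s y`, `z - z' ∈ L`, `z ∉ L`.
(b) `Piv a (Y i) (a + 1 - i)` for `i ≤ a + 1`: `Piv a ⊤ (a + 1)` (`STR` at level 0 with `x = 1`, `GRO`), so its `P` is `range (a + 1)`; take
the `s i'` with `i ≤ i'`, they are in `Y i`. (c) `NoSoc`: `x ∉ L`, `x ∈ R a`, `x b_(a,j) ≠ 0`, `j ≤ a`, `i = j + 1`, so `x ∉ Y i`. `INT` at the level `N = a + i` for
`span {x}` (`1 + i`) and `Y i` (`N + 1 - i`): `z = r x`, `z - z' ∈ L`, `z ∉ L`, so `r x ∈ Y i`. If `x - s (r x) ∈ L`, then `x ∈ Y i`. -/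
def WID_stmt : Prop := ∀ (S : Type u) [Ring S] (R : ℕ → Subring S) (E : ℕ → S) (γ : ℕ → ℕ → S), Mac R E γ →
  ∃ L : Ideal S, (1 : S) ∉ L ∧ 1 - E 0 ∈ L ∧ Uni L ∧ NoSoc L

/-! ## Transfer to quotients, and the end -/

/-- TRA (medium). From `SEQ`, `MAC`, `WID`. Proof: let `S = R / J` (a ring, `J` two-sided), `π : R → S`. `Chain S`: the images of the `S n`
(`RingHom.isSemisimpleRing_of_surjective`). The hypotheses give those of `SEQ` for `S` and `π e`. `WID`: `L'`; `1 - π e ∈ L'` because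
`1 - π e = (1 - π e) (1 - E 0)` (`π e * E 0 = E 0`) and `L'` is a left ideal. `L = L'.comap π`. -/
def TRA_stmt : Prop := ∀ (R : Type u) [Ring R], Chain R → ∀ (J : Ideal R), (∀ x ∈ J, ∀ r, x * r ∈ J) →
  ∀ e : R, e * e = e → e ∉ J →
  (∀ f, f * e - f ∈ J → f ∉ J → ∃ h, h * f ∉ J ∧ ∀ r, r * (h * f) - f ∉ J) →
  (∀ f' f'', f' * f' - f' ∈ J → f'' * f'' - f'' ∈ J → e * f' - f' ∈ J → f' * e - f' ∈ J → e * f'' - f'' ∈ J →
    f'' * e - f'' ∈ J → f' ∉ J → f'' ∉ J → ∃ b, f'' * b * f' ∉ J) →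
  ∃ L : Ideal R, J ≤ L ∧ (1 : R) ∉ L ∧ 1 - e ∈ L ∧ Uni L ∧ NoSoc L

/-- Final statement. -/
def FIN_stmt : Prop := ∀ (R : Type u) [Ring R], Chain R →
  (∀ Φ : Pairs R, IsolationCondition R Φ) ∧ ∀ Φ : Pairs Rᵐᵒᵖ, IsolationCondition Rᵐᵒᵖ Φ

end Pool.Agent.IC
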